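import Mathlib
import Pool.Agent.Helpers.H4_EffWt7
import Pool.Agent.Helpers.H4_EffWt8

set_option autoImplicit false

namespace Pool.Agent.Results.MP_a02391_co.AllMaximisers

open Filter Topology

/-- A numerical semigroup, as in the problem file: a set of positive integers, closed under
addition, with only finitely many gaps. -/
structure IsNumericalSemigroup (S : Set ℕ) : Prop where
  pos : ∀ s ∈ S, 0 < s
  add : ∀ s ∈ S, ∀ t ∈ S, s + t ∈ S
  fin : {n : ℕ | 0 < n ∧ n ∉ S}.Finite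

/-- the set of gaps -/
def gaps (S : Set ℕ) : Set ℕ := {n | 0 < n ∧ n ∉ S}

/-- the genus: the number of gaps -/
noncomputable def genus (S : Set ℕ) : ℕ := (gaps S).ncard

/-- the irreducible elements: elements of `S` that are not a sum of two elements of `S` -/
def irreducibles (S : Set ℕ) : Set ℕ := {x | x ∈ S ∧ ¬ ∃ s ∈ S, ∃ t ∈ S, x = s + t}

/-- the effective weight: number of pairs (irreducible element, larger gap) -/
noncomputable def effWeight (S : Set ℕ) : ℕ :=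
  {p : ℕ × ℕ | p.1 ∈ irreducibles S ∧ p.2 ∈ gaps S ∧ p.1 < p.2}.ncard

/-- the set of effective weights of numerical semigroups of genus `g` -/
def weights (g : ℕ) : Set ℕ := {w | ∃ S, IsNumericalSemigroup S ∧ genus S = g ∧ effWeight S = w}

/-- `M(g)`, the maximal effective weight in genus `g` -/
noncomputable def M (g : ℕ) : ℕ := sSup (weights g)

/-- `S` is a maximiser of genus `g` -/
def IsMaximiser (g : ℕ) (S : Set ℕ) : Prop :=
  IsNumericalSemigroup S ∧ genus S = g ∧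
    ∀ T, IsNumericalSemigroup T → genus T = g → effWeight T ≤ effWeight S

/-- `⟨A⟩`: the additive semigroup generated by a set `A` of positive integers -/
def generated (A : Set ℕ) : Set ℕ := (AddSubsemigroup.closure A : Set ℕ)

/-- the semigroup `⟨a, a+1, …, b⟩` generated by an interval of integers -/
def intervalSemigroup (a b : ℕ) : Set ℕ := generated (Set.Icc a b)

/-- the generator lists of the maximisers of genus at most 9 -/
def smallTable : ℕ → List (List ℕ)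
  | 0 => [[1]]
  | 1 => [[2, 3]]
  | 2 => [[2, 5]]
  | 3 => [[2, 7], [3, 4]]
  | 4 => [[2, 9], [3, 5], [4, 5, 6]]
  | 5 => [[2, 11], [3, 7, 11], [4, 5, 11], [4, 6, 7], [5, 6, 7, 8]]
  | 6 => [[3, 7], [4, 5], [4, 6, 9], [5, 6, 7]]
  | 7 => [[4, 6, 11], [6, 7, 8, 9]]
  | 8 => [[4, 6, 13], [7, 8, 9, 10, 11]]
  | 9 => [[4, 6, 15], [6, 7, 8], [7, 8, 9, 10], [8, 9, 10, 11, 12, 13]]
  | _ => []

theorem conv {S : Set ℕ} (h : IsNumericalSemigroup S) : Pool.Agent.H4EffWt.IsNumericalSemigroup S :=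
  ⟨h.pos, h.add, h.fin⟩

theorem conv' {S : Set ℕ} (h : Pool.Agent.H4EffWt.IsNumericalSemigroup S) : IsNumericalSemigroup S :=
  ⟨h.pos, h.add, h.fin⟩

theorem greatest (g : ℕ) : IsGreatest (weights g) ((g+1)^2/8) := by
  constructor
  · have hlt : (g+2)/4 < g + 1 - (g+2)/4 := by omega
    refine ⟨Pool.Agent.H4EffWt.Iv (g + 1 - (g+2)/4) ((g+2)/4), conv' (Pool.Agent.H4EffWt.Iv_sgp hlt), ?_, ?_⟩
    · have h := Pool.Agent.H4EffWt.Iv_genus hlt
      have h2 : genus (Pool.Agent.H4EffWt.Iv (g + 1 - (g+2)/4) ((g+2)/4)) + 1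
          = g + 1 - (g+2)/4 + (g+2)/4 := h
      omega
    · have h := Pool.Agent.H4EffWt.Iv_weight hlt
      rw [Pool.Agent.H4EffWt.best] at h
      exact h
  · rintro w ⟨S, hS, hg, rfl⟩
    have h := Pool.Agent.H4EffWt.upper (conv hS)
    have hg' : Pool.Agent.H4EffWt.genus S = g := hg
    rw [hg'] at h
    exact h

theorem M_eq (g : ℕ) : M g = (g+1)^2/8 := (greatest g).csSup_eq

theorem lim : Tendsto (fun g : ℕ => (M g : ℝ) / (g:ℝ)^2) atTop (𝓝 (1/8)) := by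
  have h1 : Tendsto (fun g : ℕ => (1:ℝ)/(g:ℝ)) atTop (𝓝 0) := tendsto_one_div_atTop_nhds_zero_nat
  have hup : Tendsto (fun g : ℕ => (1 + 1/(g:ℝ))^2/8) atTop (𝓝 (1/8)) := by
    have := ((h1.const_add 1).pow 2).div_const 8
    simpa using this
  have hlo : Tendsto (fun g : ℕ => (1 + 1/(g:ℝ))^2/8 - (1/(g:ℝ))^2) atTop (𝓝 (1/8)) := by
    have := hup.sub (h1.pow 2)
    simpa using this
  refine tendsto_of_tendsto_of_tendsto_of_le_of_le' hlo hup ?_ ?_
  · filter_upwards [eventually_gt_atTop 0] with g hg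
    have hg' : (0:ℝ) < g := by exact_mod_cast hg
    rw [M_eq, le_div_iff₀ (by positivity)]
    have h2 : ((g:ℝ)+1)^2/8 - 1 ≤ (((g+1)^2/8 : ℕ):ℝ) := by
      have h3 := Nat.lt_div_mul_add (a := (g+1)^2) (show 0 < 8 by norm_num)
      have h4 : (((g+1)^2 : ℕ):ℝ) ≤ (((g+1)^2/8 : ℕ):ℝ) * 8 + 8 := by exact_mod_cast h3.le
      push_cast at h4 ⊢
      linarith
    have e : ((1 + 1/(g:ℝ))^2/8 - (1/(g:ℝ))^2) * (g:ℝ)^2 = ((g:ℝ)+1)^2/8 - 1 := by
      field_simp
    rw [e]; exact h2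
  · filter_upwards [eventually_gt_atTop 0] with g hg
    have hg' : (0:ℝ) < g := by exact_mod_cast hg
    rw [M_eq, div_le_iff₀ (by positivity)]
    have h2 : (((g+1)^2/8 : ℕ):ℝ) ≤ ((g:ℝ)+1)^2/8 := by
      have h3 := Nat.div_mul_le_self ((g+1)^2) 8
      have h4 : (((g+1)^2/8 : ℕ):ℝ) * 8 ≤ (((g+1)^2 : ℕ):ℝ) := by exact_mod_cast h3
      push_cast at h4 ⊢
      linarith
    have e : (1 + 1/(g:ℝ))^2/8 * (g:ℝ)^2 = ((g:ℝ)+1)^2/8 := by
      field_simp
    rw [e]; exact h2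

theorem isMaximiser_iff (g : ℕ) (S : Set ℕ) : IsMaximiser g S ↔
    (IsNumericalSemigroup S ∧ genus S = g ∧ effWeight S = (g+1)^2/8) := by
  constructor
  · rintro ⟨h1, h2, h3⟩
    refine ⟨h1, h2, le_antisymm ((greatest g).2 ⟨S, h1, h2, rfl⟩) ?_⟩
    obtain ⟨T, hT, hTg, hTw⟩ := (greatest g).1
    rw [← hTw]
    exact h3 T hT hTg
  · rintro ⟨h1, h2, h3⟩
    refine ⟨h1, h2, ?_⟩
    intro T hT hTg
    rw [h3]
    exact (greatest g).2 ⟨T, hT, hTg, rfl⟩

theorem smallTable_eq (g : ℕ) (hg : g < 10) : smallTable g = Pool.Agent.H4EffWt.small g := by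
  interval_cases g <;> rfl

theorem small_case (g : ℕ) (hg : g ≤ 9) (S : Set ℕ) :
    IsMaximiser g S ↔ ∃ l ∈ smallTable g, S = generated {x | x ∈ l} := by
  rw [isMaximiser_iff, smallTable_eq g (by omega)]
  have h := Pool.Agent.H4EffWt.small_spec (g := g) (by omega) S
  constructor
  · rintro ⟨h1, h2, h3⟩
    exact h.1 ⟨conv h1, h2, h3⟩
  · intro h1
    obtain ⟨h2, h3, h4⟩ := h.2 h1
    exact ⟨conv' h2, h3, h4⟩

theorem weight_eq (g h : ℕ) (h1 : 4*h ≤ g+3) (h2 : g ≤ 4*h+1) :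
    h * (g + 1 - h - h) = (g+1)^2/8 := by
  obtain ⟨r, hr, hg⟩ : ∃ r, r ≤ 4 ∧ g + 3 = 4*h + r := ⟨g + 3 - 4*h, by omega, by omega⟩
  rcases h with _ | k
  · have : g ≤ 1 := by omega
    interval_cases g <;> simp
  · interval_cases r
    · have : g + 1 = 4*k + 2 := by omega
      rw [this]
      have e1 : 4*k+2-(k+1)-(k+1) = 2*k := by omega
      rw [e1]
      have e2 : (4*k+2)^2 = ((k+1)*(2*k))*8 + 4 := by ring
      rw [e2]; omega
    · have : g + 1 = 4*k + 3 := by omega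
      rw [this]
      have e1 : 4*k+3-(k+1)-(k+1) = 2*k+1 := by omega
      rw [e1]
      have e2 : (4*k+3)^2 = ((k+1)*(2*k+1))*8 + 1 := by ring
      rw [e2]; omega
    · have : g + 1 = 4*k + 4 := by omega
      rw [this]
      have e1 : 4*k+4-(k+1)-(k+1) = 2*k+2 := by omega
      rw [e1]
      have e2 : (4*k+4)^2 = ((k+1)*(2*k+2))*8 := by ring
      rw [e2]; omega
    · have : g + 1 = 4*k + 5 := by omega
      rw [this]
      have e1 : 4*k+5-(k+1)-(k+1) = 2*k+3 := by omega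
      rw [e1]
      have e2 : (4*k+5)^2 = ((k+1)*(2*k+3))*8 + 1 := by ring
      rw [e2]; omega
    · have : g + 1 = 4*k + 6 := by omega
      rw [this]
      have e1 : 4*k+6-(k+1)-(k+1) = 2*k+4 := by omega
      rw [e1]
      have e2 : (4*k+6)^2 = ((k+1)*(2*k+4))*8 + 4 := by ring
      rw [e2]; omega

theorem Iv_eq (g h : ℕ) (hg : 10 ≤ g) (h1 : 4*h ≤ g+3) :
    intervalSemigroup (g+1-h) (2*g+1-3*h) = Pool.Agent.H4EffWt.Iv (g+1-h) h := by
  have e : 2*g+1-3*h = 2*(g+1-h)-h-1 := by omega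
  unfold intervalSemigroup generated
  rw [e, Pool.Agent.H4EffWt.Iv_closure (by omega)]

theorem large_case (g : ℕ) (hg : 10 ≤ g) (S : Set ℕ) :
    IsMaximiser g S ↔ ∃ h : ℕ, 4*h ≤ g+3 ∧ g ≤ 4*h+1 ∧
      S = intervalSemigroup (g+1-h) (2*g+1-3*h) := by
  rw [isMaximiser_iff]
  constructor
  · rintro ⟨h1, h2, h3⟩
    have hg2 : Pool.Agent.H4EffWt.genus S = g := h2
    have hw : Pool.Agent.H4EffWt.effWeight S = (g+1)^2/8 := h3
    obtain ⟨m, h, h4, h5, h6, h7⟩ := Pool.Agent.H4EffWt.near (conv h1) (by omega) (by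
      rw [hg2, hw]; omega)
    rw [hg2] at h7
    have h8 := Pool.Agent.H4EffWt.sq_le_seven h6
    refine ⟨h, by omega, by omega, ?_⟩
    rw [Iv_eq g h hg (by omega), h5]
    congr 1
    omega
  · rintro ⟨h, h1, h2, rfl⟩
    rw [Iv_eq g h hg h1]
    have hlt : h < g + 1 - h := by omega
    refine ⟨conv' (Pool.Agent.H4EffWt.Iv_sgp hlt), ?_, ?_⟩
    · have h3 : genus (Pool.Agent.H4EffWt.Iv (g + 1 - h) h) + 1
          = g + 1 - h + h := Pool.Agent.H4EffWt.Iv_genus hlt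
      omega
    · have h3 : effWeight (Pool.Agent.H4EffWt.Iv (g + 1 - h) h) = h * (g + 1 - h - h) :=
        Pool.Agent.H4EffWt.Iv_weight hlt
      rw [h3]
      exact weight_eq g h h1 h2

theorem count (g : ℕ) (hg : 10 ≤ g) :
    {S : Set ℕ | IsMaximiser g S}.ncard = if g % 4 = 1 then 2 else 1 := by
  split_ifs with h
  · obtain ⟨k, rfl⟩ : ∃ k, g = 4*k+1 := ⟨g/4, by omega⟩
    have hset : {S : Set ℕ | IsMaximiser (4*k+1) S} =
        {intervalSemigroup (4*k+1+1-k) (2*(4*k+1)+1-3*k),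
          intervalSemigroup (4*k+1+1-(k+1)) (2*(4*k+1)+1-3*(k+1))} := by
      ext S
      rw [Set.mem_ofPred_eq, large_case _ hg, Set.mem_insert_iff, Set.mem_singleton_iff]
      constructor
      · rintro ⟨h, h1, h2, h3⟩
        have : h = k ∨ h = k + 1 := by omega
        rcases this with rfl | rfl
        · exact Or.inl h3
        · exact Or.inr h3
      · rintro (h | h)
        · exact ⟨k, by omega, by omega, h⟩
        · exact ⟨k+1, by omega, by omega, h⟩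
    rw [hset, Set.ncard_pair]
    rw [Iv_eq _ k hg (by omega), Iv_eq _ (k+1) hg (by omega)]
    intro heq
    have h1 : 4*k+1+1-(k+1) ∈ Pool.Agent.H4EffWt.Iv (4*k+1+1-(k+1)) (k+1) := by
      left; omega
    rw [← heq] at h1
    rcases h1 with h1 | h1 <;> omega
  · have hset : {S : Set ℕ | IsMaximiser g S} =
        {intervalSemigroup (g+1-(g+2)/4) (2*g+1-3*((g+2)/4))} := by
      ext S
      rw [Set.mem_ofPred_eq, large_case _ hg, Set.mem_singleton_iff]
      constructor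
      · rintro ⟨h, h1, h2, h3⟩
        have : h = (g+2)/4 := by omega
        rw [← this]; exact h3
      · intro h3
        exact ⟨(g+2)/4, by omega, by omega, h3⟩
    rw [hset, Set.ncard_singleton]

theorem c2 (g : ℕ) (hg : 3 ≤ g) :
    ∃ a b, 2 ≤ a ∧ a < b ∧ b < 2*a ∧ IsMaximiser g (intervalSemigroup a b) := by
  have hlt : 2*((g+2)/4) + 1 ≤ g + 1 - (g+2)/4 := by omega
  have hlt' : (g+2)/4 < g + 1 - (g+2)/4 := by omega
  refine ⟨g + 1 - (g+2)/4, 2*(g + 1 - (g+2)/4) - (g+2)/4 - 1, by omega, by omega, by omega, ?_⟩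
  unfold intervalSemigroup generated
  rw [Pool.Agent.H4EffWt.Iv_closure hlt, isMaximiser_iff]
  refine ⟨conv' (Pool.Agent.H4EffWt.Iv_sgp hlt'), ?_, ?_⟩
  · have h2 : genus (Pool.Agent.H4EffWt.Iv (g + 1 - (g+2)/4) ((g+2)/4)) + 1
        = g + 1 - (g+2)/4 + (g+2)/4 := Pool.Agent.H4EffWt.Iv_genus hlt'
    omega
  · have h := Pool.Agent.H4EffWt.Iv_weight hlt'
    rw [Pool.Agent.H4EffWt.best] at h
    exact h

/-- Complete answer to Q1.

* For `g ≤ 9` the maximisers of genus `g` are exactly the semigroups generated by the lists in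
  `smallTable g`.
* For `g ≥ 10` they are exactly the semigroups `⟨g+1-h, …, 2g+1-3h⟩` with `|g+1-4h| ≤ 2`
  (one semigroup if `g ≢ 1 mod 4`, two if `g ≡ 1 mod 4`).
* `M(g) = ⌊(g+1)²/8⌋` for every `g`.
* (C2) holds for every `g ≥ 3`; (C1), i.e. `M(g)/g² → 1/4`, is false, the limit is `1/8`. -/
theorem result :
    (∀ g, g ≤ 9 → ∀ S, IsMaximiser g S ↔ ∃ l ∈ smallTable g, S = generated {x | x ∈ l}) ∧
    (∀ g, 10 ≤ g → ∀ S, IsMaximiser g S ↔
      ∃ h : ℕ, 4*h ≤ g+3 ∧ g ≤ 4*h+1 ∧ S = intervalSemigroup (g+1-h) (2*g+1-3*h)) ∧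
    (∀ g, 10 ≤ g → {S : Set ℕ | IsMaximiser g S}.ncard = if g % 4 = 1 then 2 else 1) ∧
    (∀ g, IsGreatest (weights g) ((g+1)^2/8) ∧ M g = (g+1)^2/8) ∧
    (∀ g, 3 ≤ g → ∃ a b, 2 ≤ a ∧ a < b ∧ b < 2*a ∧ IsMaximiser g (intervalSemigroup a b)) ∧
    Tendsto (fun g : ℕ => (M g : ℝ) / (g:ℝ)^2) atTop (𝓝 (1/8)) ∧
    ¬ Tendsto (fun g : ℕ => (M g : ℝ) / (g:ℝ)^2) atTop (𝓝 (1/4)) := by
  refine ⟨small_case, large_case, count, fun g => ⟨greatest g, M_eq g⟩, c2, lim, ?_⟩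
  intro h
  have := tendsto_nhds_unique h lim
  norm_num at this

end Pool.Agent.Results.MP_a02391_co.AllMaximisers
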