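import Mathlib
import Pool.Agent.Helpers.H4_EffWt3

set_option autoImplicit false

namespace Pool.Agent.Results.MP_a02391_co.ExactMaximum

open Filter Topology

/-- A numerical semigroup, as in the problem file: a set of positive integers, closed under
addition, with only finitely many gaps. -/
structure IsNumericalSemigroup (S : Set ℕ) : Prop where
  pos : ∀ s ∈ S, 0 < s
  add : ∀ s ∈ S, ∀ t ∈ S, s + t ∈ S
  fin : {n : ℕ | 0 < n ∧ n ∉ S}.Finite

/-- the set of gaps -/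
def gaps (S : Set ℕ) : Set ℕ := {n | 0 < n ∧ n ∉ S}

/-- the genus: the number of gaps -/
noncomputable def genus (S : Set ℕ) : ℕ := (gaps S).ncard

/-- the irreducible elements: elements of `S` that are not a sum of two elements of `S` -/
def irreducibles (S : Set ℕ) : Set ℕ := {x | x ∈ S ∧ ¬ ∃ s ∈ S, ∃ t ∈ S, x = s + t}

/-- the effective weight: number of pairs (irreducible element, larger gap) -/
noncomputable def effWeight (S : Set ℕ) : ℕ :=
  {p : ℕ × ℕ | p.1 ∈ irreducibles S ∧ p.2 ∈ gaps S ∧ p.1 < p.2}.ncard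

/-- the set of effective weights of numerical semigroups of genus `g` -/
def weights (g : ℕ) : Set ℕ := {w | ∃ S, IsNumericalSemigroup S ∧ genus S = g ∧ effWeight S = w}

/-- `M(g)`, the maximal effective weight in genus `g` -/
noncomputable def M (g : ℕ) : ℕ := sSup (weights g)

/-- `S` is a maximiser of genus `g` -/
def IsMaximiser (g : ℕ) (S : Set ℕ) : Prop :=
  IsNumericalSemigroup S ∧ genus S = g ∧
    ∀ T, IsNumericalSemigroup T → genus T = g → effWeight T ≤ effWeight S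

/-- the semigroup `⟨a, a+1, …, b⟩` generated by an interval of integers -/
def intervalSemigroup (a b : ℕ) : Set ℕ := (AddSubsemigroup.closure (Set.Icc a b) : Set ℕ)

theorem conv {S : Set ℕ} (h : IsNumericalSemigroup S) : Pool.Agent.H4EffWt.IsNumericalSemigroup S :=
  ⟨h.pos, h.add, h.fin⟩

theorem conv' {S : Set ℕ} (h : Pool.Agent.H4EffWt.IsNumericalSemigroup S) : IsNumericalSemigroup S :=
  ⟨h.pos, h.add, h.fin⟩

theorem greatest (g : ℕ) : IsGreatest (weights g) ((g+1)^2/8) := by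
  constructor
  · have hlt : (g+2)/4 < g + 1 - (g+2)/4 := by omega
    refine ⟨Pool.Agent.H4EffWt.Iv (g + 1 - (g+2)/4) ((g+2)/4), conv' (Pool.Agent.H4EffWt.Iv_sgp hlt), ?_, ?_⟩
    · have h := Pool.Agent.H4EffWt.Iv_genus hlt
      have h2 : genus (Pool.Agent.H4EffWt.Iv (g + 1 - (g+2)/4) ((g+2)/4)) + 1
          = g + 1 - (g+2)/4 + (g+2)/4 := h
      omega
    · have h := Pool.Agent.H4EffWt.Iv_weight hlt
      rw [Pool.Agent.H4EffWt.best] at h
      exact h
  · rintro w ⟨S, hS, hg, rfl⟩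
    have h := Pool.Agent.H4EffWt.upper (conv hS)
    have hg' : Pool.Agent.H4EffWt.genus S = g := hg
    rw [hg'] at h
    exact h

theorem M_eq (g : ℕ) : M g = (g+1)^2/8 := (greatest g).csSup_eq

theorem lim : Tendsto (fun g : ℕ => (M g : ℝ) / (g:ℝ)^2) atTop (𝓝 (1/8)) := by
  have h1 : Tendsto (fun g : ℕ => (1:ℝ)/(g:ℝ)) atTop (𝓝 0) := tendsto_one_div_atTop_nhds_zero_nat
  have hup : Tendsto (fun g : ℕ => (1 + 1/(g:ℝ))^2/8) atTop (𝓝 (1/8)) := by
    have := ((h1.const_add 1).pow 2).div_const 8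
    simpa using this
  have hlo : Tendsto (fun g : ℕ => (1 + 1/(g:ℝ))^2/8 - (1/(g:ℝ))^2) atTop (𝓝 (1/8)) := by
    have := hup.sub (h1.pow 2)
    simpa using this
  refine tendsto_of_tendsto_of_tendsto_of_le_of_le' hlo hup ?_ ?_
  · filter_upwards [eventually_gt_atTop 0] with g hg
    have hg' : (0:ℝ) < g := by exact_mod_cast hg
    rw [M_eq, le_div_iff₀ (by positivity)]
    have h2 : ((g:ℝ)+1)^2/8 - 1 ≤ (((g+1)^2/8 : ℕ):ℝ) := by
      have h3 := Nat.lt_div_mul_add (a := (g+1)^2) (show 0 < 8 by norm_num)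
      have h4 : (((g+1)^2 : ℕ):ℝ) ≤ (((g+1)^2/8 : ℕ):ℝ) * 8 + 8 := by exact_mod_cast h3.le
      push_cast at h4 ⊢
      linarith
    have e : ((1 + 1/(g:ℝ))^2/8 - (1/(g:ℝ))^2) * (g:ℝ)^2 = ((g:ℝ)+1)^2/8 - 1 := by
      field_simp
    rw [e]; exact h2
  · filter_upwards [eventually_gt_atTop 0] with g hg
    have hg' : (0:ℝ) < g := by exact_mod_cast hg
    rw [M_eq, div_le_iff₀ (by positivity)]
    have h2 : (((g+1)^2/8 : ℕ):ℝ) ≤ ((g:ℝ)+1)^2/8 := by
      have h3 := Nat.div_mul_le_self ((g+1)^2) 8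
      have h4 : (((g+1)^2/8 : ℕ):ℝ) * 8 ≤ (((g+1)^2 : ℕ):ℝ) := by exact_mod_cast h3
      push_cast at h4 ⊢
      linarith
    have e : (1 + 1/(g:ℝ))^2/8 * (g:ℝ)^2 = ((g:ℝ)+1)^2/8 := by
      field_simp
    rw [e]; exact h2

/-- The maximal effective weight of a numerical semigroup of genus `g` is exactly
`⌊(g+1)²/8⌋` for every `g`; for every `g ≥ 3` it is attained by a semigroup `⟨a, a+1, …, b⟩` with
`2 ≤ a < b < 2a` (conjecture (C2), for all `g ≥ 3`); and `M(g)/g² → 1/8`, so that (C1), which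
asserts `M(g)/g² → 1/4`, is false. -/
theorem result :
    (∀ g, IsGreatest (weights g) ((g+1)^2/8) ∧ M g = (g+1)^2/8) ∧
    (∀ g, 3 ≤ g → ∃ a b, 2 ≤ a ∧ a < b ∧ b < 2*a ∧ IsMaximiser g (intervalSemigroup a b)) ∧
    Tendsto (fun g : ℕ => (M g : ℝ) / (g:ℝ)^2) atTop (𝓝 (1/8)) ∧
    ¬ Tendsto (fun g : ℕ => (M g : ℝ) / (g:ℝ)^2) atTop (𝓝 (1/4)) := by
  refine ⟨fun g => ⟨greatest g, M_eq g⟩, ?_, lim, ?_⟩
  · intro g hg
    have hlt : 2*((g+2)/4) + 1 ≤ g + 1 - (g+2)/4 := by omega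
    have hlt' : (g+2)/4 < g + 1 - (g+2)/4 := by omega
    refine ⟨g + 1 - (g+2)/4, 2*(g + 1 - (g+2)/4) - (g+2)/4 - 1, by omega, by omega, by omega, ?_⟩
    unfold intervalSemigroup
    rw [Pool.Agent.H4EffWt.Iv_closure hlt]
    have hgen : genus (Pool.Agent.H4EffWt.Iv (g + 1 - (g+2)/4) ((g+2)/4)) = g := by
      have h2 : genus (Pool.Agent.H4EffWt.Iv (g + 1 - (g+2)/4) ((g+2)/4)) + 1
          = g + 1 - (g+2)/4 + (g+2)/4 := Pool.Agent.H4EffWt.Iv_genus hlt'
      omega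
    refine ⟨conv' (Pool.Agent.H4EffWt.Iv_sgp hlt'), hgen, ?_⟩
    intro T hT hTg
    have h := Pool.Agent.H4EffWt.Iv_weight hlt'
    rw [Pool.Agent.H4EffWt.best] at h
    have h3 : effWeight (Pool.Agent.H4EffWt.Iv (g + 1 - (g+2)/4) ((g+2)/4)) = (g+1)^2/8 := h
    rw [h3]
    exact (greatest g).2 ⟨T, hT, hTg, rfl⟩
  · intro h
    have := tendsto_nhds_unique h lim
    norm_num at this

end Pool.Agent.Results.MP_a02391_co.ExactMaximum
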